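import Pool.Agent.H34.BW.Exp

/-!
# Beurling primes with the Riemann hypothesis and a prescribed threshold for the prime number theorem in short intervals

Q1 asks for `π(x, H) ∼ H / log x` for all `x ^ ε ≤ H ≤ x`. The Riemann hypothesis gives this for `H` above `√x log x`. How much
below could be deduced from information on the zeta function and on the distribution of the integers? Here this is answered for
generalised primes (Beurling primes): a sequence `1 < q 0 < q 1 < ...` of real numbers, with the generalised integers
`gint q n = ∏ q (k - 1)` over the prime factors of `n` with multiplicity, the factor being the `k`-th prime.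

`RHSystem q` collects what the Riemann hypothesis and the Lindelöf hypothesis would give for the primes, in a strong form: the
prime number theorem with the error `O(√x)`, generalised integers with a positive density and the error `O(x ^ (1 / 2 + ε))`, and
a zeta function `s / (s - 1) * exp (G s)` with `G` holomorphic in `Re s > 1 / 2` and `O(√ (log (|t| + 3)))` uniformly in every
half-plane `Re s ≥ σ > 1 / 2`.

(1) EVERY function `h` with `h x / log x → ∞` and `h x = O(√x log x)` which is self-neglecting (`h y ∼ h x` for
`|y - x| = O(h x)`; for instance `h x = x ^ θ`, `0 < θ ≤ 1 / 2`, `h x = √x log x`, or `h x = (log x) ^ c`, `c > 1`) is the exact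
threshold of the prime number theorem in short intervals for some such system: for every `lam > 0` the upper limit of
`sup (π(x, H) log x / H)` over `lam h(x) ≤ H ≤ x` is `1 + 1 / lam`, and the lower limit of the infimum is `max 0 (1 - 1 / lam)`.
So the asymptotic formula holds, uniformly, for all `H` with `H / h(x) → ∞`, and it fails for `H ≍ h(x)`.

(2) For every `θ` in `[0, 1 / 2]` there is such a system for which the asymptotic formula holds uniformly for
`x ^ (θ + ε) ≤ H ≤ x`, for every `ε > 0`, while the intervals `(x, x + x ^ (θ - ε)]` contain no generalised primes at all for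
arbitrarily large `x`. So the analogue of Q1 is true for some of these systems (`θ = 0`) and false for others, and the range
`H ≥ x ^ (1 / 2 + ε)` which RH gives cannot be extended by any argument that uses only the hypotheses in `RHSystem`.

The construction of the systems (one point in each slot of mass `1`, chosen by the method of conditional expectations, with
sparse holes whose points are moved to the right end), the continuation of the zeta function and the count of the integers are
helper49's (`Pool.Agent.H49.BP`, made for `MP_ff81b6_nt.BeurlingGaps`, a theorem on the maximal gaps).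
-/

set_option autoImplicit false

open Filter Topology Set

namespace Pool.Agent.H34.Old.BeurlingThresholds

open Pool.Agent.H49.BP Pool.Agent.H34.BW

/-- **Prescribed thresholds of the prime number theorem in short intervals, under the analogues of RH and Lindelöf.** -/
theorem result :
    -- (1) every self-neglecting function between `log x` and `√x log x` is the exact threshold of some system
    (∀ h : ℝ → ℝ, SelfNeglecting h → Tendsto (fun x => h x / Real.log x) atTop atTop →
      (∃ A : ℝ, ∀ᶠ x in atTop, h x ≤ A * √x * Real.log x) →
        ∃ q : ℕ → ℝ, RHSystem q ∧ ∀ lam : ℝ, 0 < lam →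
          limsup (fun x : ℝ => ⨆ H ∈ Icc (lam * h x) x, ((dens q x H : ℝ) : EReal)) atTop =
            ((1 + 1 / lam : ℝ) : EReal) ∧
          liminf (fun x : ℝ => ⨅ H ∈ Icc (lam * h x) x, ((dens q x H : ℝ) : EReal)) atTop =
            ((max 0 (1 - 1 / lam) : ℝ) : EReal)) ∧
    -- (2) every exponent in `[0, 1 / 2]` is the exact exponent of some system
    ∀ θ : ℝ, 0 ≤ θ → θ ≤ 1 / 2 → ∃ q : ℕ → ℝ, RHSystem q ∧ ∀ ε : ℝ, 0 < ε →
      (∀ δ : ℝ, 0 < δ → ∀ᶠ x : ℝ in atTop, ∀ H ∈ Icc (x ^ (θ + ε)) x, |dens q x H - 1| ≤ δ) ∧
      ∃ᶠ x : ℝ in atTop, primesIn q x (x ^ (θ - ε)) = 0 := by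
  refine ⟨fun h h1 h2 h3 => ?_, fun θ h0 h1 => ?_⟩
  · obtain ⟨n0, q', A, S, hS⟩ := exists_sys h1 h2 h3
    exact ⟨qq h n0 q', hS, fun lam hlam => ⟨S.limsup_dens hlam, S.liminf_dens hlam⟩⟩
  · rcases eq_or_lt_of_le h0 with h2 | h2
    · obtain ⟨n0, q', A, S, hS⟩ := exists_sys (h := fun x => Real.log x ^ 2) selfNeglecting_log (by
        refine Real.tendsto_log_atTop.congr' ?_
        filter_upwards [eventually_gt_atTop 1] with x hx
        have := (Real.log_pos hx).ne'
        field_simp) ⟨1, by
        filter_upwards [log_pow_le (ε := 1 / 2) (by norm_num) 1 1, eventually_gt_atTop 1] with x h4 h5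
        have hl := Real.log_pos h5
        rw [← Real.sqrt_eq_rpow, one_mul, pow_one] at h4
        rw [one_mul, pow_two]
        exact mul_le_mul_of_nonneg_right h4 hl.le⟩
      refine ⟨_, hS, fun ε hε => ⟨fun δ hδ => S.above (f := fun x => x ^ (θ + ε)) (fun lam _ => ?_) hδ,
        S.below (f := fun x => x ^ (θ - ε)) ?_⟩⟩
      · rw [← h2, zero_add]
        exact log_pow_le hε 2 lam
      · filter_upwards [eventually_gt_atTop 1, Real.tendsto_log_atTop.eventually (eventually_ge_atTop 2)] with x h4 h5
        refine ⟨Real.rpow_nonneg (by linarith) _, ?_⟩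
        have h6 : x ^ (θ - ε) ≤ 1 := Real.rpow_le_one_of_one_le_of_nonpos h4.le (by linarith)
        nlinarith
    · obtain ⟨n0, q', A, S, hS⟩ := exists_sys (h := fun x => x ^ θ) (selfNeglecting_rpow h2 h1) (by
        refine tendsto_atTop.2 fun b => ?_
        filter_upwards [log_pow_le (ε := θ) h2 1 b, eventually_gt_atTop 1] with x h4 h5
        rw [pow_one] at h4
        rw [le_div_iff₀ (Real.log_pos h5)]
        exact h4) ⟨1, by
        filter_upwards [eventually_gt_atTop 1, Real.tendsto_log_atTop.eventually (eventually_ge_atTop 1)] with x h4 h5
        have h6 : x ^ θ ≤ √x := by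
          rw [Real.sqrt_eq_rpow]
          exact Real.rpow_le_rpow_of_exponent_le h4.le h1
        have h7 : 0 ≤ √x := Real.sqrt_nonneg x
        nlinarith⟩
      refine ⟨_, hS, fun ε hε => ⟨fun δ hδ => S.above (f := fun x => x ^ (θ + ε)) (fun lam _ => ?_) hδ,
        S.below (f := fun x => x ^ (θ - ε)) ?_⟩⟩
      · exact rpow_mul_le (by linarith)
      · filter_upwards [eventually_gt_atTop 1, rpow_mul_le (a := θ - ε) (b := θ) (c := 2) (by linarith),
          (tendsto_rpow_atTop h2).eventually (eventually_ge_atTop 2)] with x h4 h5 h6
        refine ⟨Real.rpow_nonneg (by linarith) _, ?_⟩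
        linarith

end Pool.Agent.H34.Old.BeurlingThresholds
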