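import Pool.Agent.H34.DR.Main

/-!
# If the zeros are asymptotically determinantal, then with the sine kernel

`γ 1 ≤ γ 2 ≤ …` are the ordinates of the nontrivial zeros of the Riemann zeta function in the upper half-plane, with
multiplicity, and `Correlation r l` is the statement of the problem for `k = r + 1`, for `T → ∞` along the filter `l`
(`l = atTop`, or along a sequence of heights).  Under the Riemann hypothesis we prove:

* if along `l` the correlation functions of the zeros are those of some determinantal point process with a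
  continuous Hermitian kernel `K(x, y)` of density one, which is not assumed to depend on `x - y`, then all its determinants are
  those of the sine kernel, and `Correlation r l` holds for all `r`;
* so Q1 is equivalent to: every sequence of heights has a subsequence along which the zeros are asymptotically determinantal.

Idea of the proof.  The limits of nonnegative counts are nonnegative, so all the determinants of `K` are, and `K` is
positive definite; so is `h(x - y) = |K(x, y)|²`.  Let `ν` be the measure with the transform `h`.  Montgomery's theorem (for the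
zeros up to `T`, derived here from the library theorem for dyadic blocks) says that `ν` is `(1 - |α|) dα` on `(-1, 1)`; this has the
mass `1`, and `ν` has the mass `h(0) ≤ 1`, since the pair density is nonnegative at `0`; so `ν` has no mass
elsewhere and `h` is the transform of the tent.  (In the proof `ν` is not used; positivity is used for the kernel
`(δ - τ) * (δ - τ)`, where the transform of `τ` is close to `1` on `(-1, 1)` and `0` elsewhere.)  Finally `K` is positive
definite with `|K(x, y)| = |s(x - y)|`, `s(x) = sin πx / πx`.  For each `w` the vectors of the points `w + n` are orthonormal and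
complete, by `∑ s(x - w - n)² = 1`; so `K(x, z) = ∑ K(x, w + n) K(w + n, z)`, and the same holds for `s`.  If `|x - z| < 1`, then at
most one term of the latter sum has the sign opposite to the others, so the former has the case of equality in the triangle
inequality, and `K(x, w) K(w, z) K(z, x)` is the product for `s`.  So `K` is `s` up to a gauge factor.
-/

open Filter Topology MeasureTheory

namespace Pool.Agent.Results.MP_67227b_nt.DeterminantalLimits

open H34.DR

/-- multiplicity of `s` as a zero of the Riemann zeta function (order of vanishing at `s`) -/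
noncomputable def zmult (s : ℂ) : ℕ := analyticOrderNatAt riemannZeta s

/-- the number of nontrivial zeros of `ζ` with ordinate in `(0, t]`, with multiplicity -/
noncomputable def NZ (t : ℝ) : ℕ :=
  ∑ᶠ s ∈ {s : ℂ | riemannZeta s = 0 ∧ 0 < s.re ∧ s.re < 1 ∧ 0 < s.im ∧ s.im ≤ t}, zmult s

/-- for `n ≥ 1`: the `n`-th positive ordinate `γ n` of a nontrivial zero of `ζ`, the ordinates being
listed in nondecreasing order and repeated according to multiplicity -/
noncomputable def γ (n : ℕ) : ℝ := sInf {t : ℝ | n ≤ NZ t}

/-- `N_k(T; B)` with `k = r + 1` and `B = ∏ [a_i, b_i]`: the number of `k`-tuples of pairwise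
distinct indices with ordinates at most `T` whose normalised differences with the last ordinate
lie in the box `B` -/
noncomputable def Nk (r : ℕ) (T : ℝ) (a b : Fin r → ℝ) : ℕ :=
  {j : Fin (r + 1) → ℕ | Function.Injective j ∧ (∀ i, 1 ≤ j i ∧ γ (j i) ≤ T) ∧
    ∀ i : Fin r, (γ (j i.castSucc) - γ (j (Fin.last r))) * (Real.log T / (2 * Real.pi)) ∈
      Set.Icc (a i) (b i)}.ncard

/-- the matrix `A(u_1, …, u_n)` with the entries `sin π(u_i - u_j) / (π(u_i - u_j))`, which is `1`
for `u_i = u_j` -/
noncomputable def sineMatrix {n : ℕ} (u : Fin n → ℝ) : Matrix (Fin n) (Fin n) ℝ :=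
  Matrix.of fun i j => Real.sinc (Real.pi * (u i - u j))

/-- the statement of the question for `k = r + 1`, for `T → ∞` along the filter `l`: for every box
`B`, the quotient of `N_k(T; B)` and `(T / 2π) log T` tends to `∫_B det A(u_1, …, u_{k-1}, 0) du` -/
def Correlation (r : ℕ) (l : Filter ℝ) : Prop :=
  ∀ a b : Fin r → ℝ, (∀ i, a i < b i) →
    Tendsto (fun T : ℝ => (Nk r T a b : ℝ) / (T / (2 * Real.pi) * Real.log T)) l
      (𝓝 (∫ u in Set.Icc a b, (sineMatrix (Fin.snoc u 0 : Fin (r + 1) → ℝ)).det))

/-- the matrix with the entries `K(u_i, u_j)` -/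
noncomputable def kernelMatrix (K : ℝ → ℝ → ℂ) {n : ℕ} (u : Fin n → ℝ) : Matrix (Fin n) (Fin n) ℂ :=
  Matrix.of fun i j => K (u i) (u j)

/-- `K` is a continuous Hermitian kernel on the line with `K(x, x) = 1` -/
def IsKernel (K : ℝ → ℝ → ℂ) : Prop :=
  (Continuous fun p : ℝ × ℝ => K p.1 p.2) ∧ (∀ x y, K y x = starRingEnd ℂ (K x y)) ∧ ∀ x, K x x = 1

/-- the correlation functions of the zeros, of all orders `k = r + 1 ≥ 2`, are those of the determinantal point process with
the kernel `K`, for `T → ∞` along the filter `l`: for every box `B` and every base point `c`, the quotient of `N_k(T; B)` and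
`(T / 2π) log T` tends to the integral over `B` of the determinant of the kernel at `c + u_1, …, c + u_{k-1}, c` -/
def Determinantal (K : ℝ → ℝ → ℂ) (l : Filter ℝ) : Prop :=
  ∀ r : ℕ, 1 ≤ r → ∀ (c : ℝ) (a b : Fin r → ℝ), (∀ i, a i < b i) →
    Tendsto (fun T : ℝ => (Nk r T a b : ℝ) / (T / (2 * Real.pi) * Real.log T)) l
      (𝓝 (∫ u in Set.Icc a b, (kernelMatrix K (Fin.snoc (fun i => c + u i) c : Fin (r + 1) → ℝ)).det.re))

theorem Nk_one (T α β : ℝ) (a b : Fin 1 → ℝ) (ha : a 0 = α) (hb : b 0 = β) :
    Nk 1 T a b = (AP T T α β).card := by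
  unfold Nk
  rw [← Set.ncard_coe_finset]
  set f : (Fin 2 → ℕ) → ℕ × ℕ := fun j => (j 0, j 1) with hf
  have hinj : Function.Injective f := by
    intro j j' h
    simp only [hf, Prod.mk.injEq] at h
    ext i
    fin_cases i
    · exact h.1
    · exact h.2
  rw [← Set.ncard_image_of_injective _ hinj]
  congr 1
  ext z
  simp only [Set.mem_image, Set.mem_ofPred_eq, Finset.mem_coe]
  unfold AP
  rw [Finset.mem_filter, Finset.mem_offDiag, mem_Icc_NZ, mem_Icc_NZ]
  constructor
  · rintro ⟨j, ⟨h1, h2, h3⟩, rfl⟩
    have h4 := h3 0
    rw [ha, hb] at h4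
    exact ⟨⟨h2 0, h2 1, fun h => absurd (h1 h) (by decide)⟩, h4⟩
  · rintro ⟨⟨h1, h2, h3⟩, h4⟩
    refine ⟨![z.1, z.2], ⟨?_, ?_, ?_⟩, rfl⟩
    · intro i j hij
      fin_cases i <;> fin_cases j
      · rfl
      · exact absurd hij h3
      · exact absurd hij.symm h3
      · rfl
    · intro i
      fin_cases i
      · exact h1
      · exact h2
    · intro i
      fin_cases i
      show _ ∈ Set.Icc (a 0) (b 0)
      rw [ha, hb]
      exact h4

theorem det_part (hRH : RiemannHypothesis) {l : Filter ℝ} (hl : l ≤ atTop) [l.NeBot]
    {K : ℝ → ℝ → ℂ} (hK : IsKernel K) (hD : Determinantal K l) :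
    (∀ (n : ℕ) (u : Fin n → ℝ), (kernelMatrix K u).det = ((sineMatrix u).det : ℂ)) ∧
    ∀ r : ℕ, 1 ≤ r → Correlation r l := by
  obtain ⟨hc, hh, hd⟩ := hK
  have D : Dens l K :=
    { N := Nk
      two := fun T a b => Nk_one T (a 0) (b 0) a b rfl rfl
      lim := hD }
  have h1 : ∀ (n : ℕ) (u : Fin n → ℝ), (kernelMatrix K u).det = ((sineMatrix u).det : ℂ) :=
    fun n u => D.dets hRH hl hc hh hd u
  refine ⟨h1, fun r hr a b hab => ?_⟩
  have h2 := hD r hr 0 a b hab
  simp_rw [h1, Complex.ofReal_re] at h2
  simp only [zero_add] at h2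
  exact h2

/-- the sine kernel -/
noncomputable def sineKernel (x y : ℝ) : ℂ := (Real.sinc (Real.pi * (x - y)) : ℂ)

theorem sine_isKernel : IsKernel sineKernel := by
  refine ⟨?_, ?_, ?_⟩
  · unfold sineKernel
    exact Complex.continuous_ofReal.comp (Real.continuous_sinc.comp (by fun_prop))
  · intro x y
    unfold sineKernel
    rw [Complex.conj_ofReal, show Real.pi * (y - x) = -(Real.pi * (x - y)) by ring, Real.sinc_neg]
  · intro x
    unfold sineKernel
    simp

theorem sine_det {r : ℕ} (c : ℝ) (u : Fin r → ℝ) :
    (kernelMatrix sineKernel (Fin.snoc (fun i => c + u i) c : Fin (r + 1) → ℝ)).det.re =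
      (sineMatrix (Fin.snoc u 0 : Fin (r + 1) → ℝ)).det := by
  have h1 : (Fin.snoc (fun i => c + u i) c : Fin (r + 1) → ℝ) =
      fun i => c + (Fin.snoc u 0 : Fin (r + 1) → ℝ) i := by
    ext i
    refine Fin.lastCases ?_ (fun i => ?_) i
    · simp
    · simp
  have h2 : kernelMatrix sineKernel (Fin.snoc (fun i => c + u i) c : Fin (r + 1) → ℝ) =
      (sineMatrix (Fin.snoc u 0 : Fin (r + 1) → ℝ)).map Complex.ofRealHom := by
    rw [h1]
    ext i j
    simp only [kernelMatrix, sineKernel, sineMatrix, Matrix.of_apply, Matrix.map_apply,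
      Complex.ofRealHom_eq_coe]
    congr 3
    ring
  rw [h2, ← RingHom.mapMatrix_apply, ← RingHom.map_det]
  exact Complex.ofReal_re _

theorem sine_determinantal {l : Filter ℝ} (h : ∀ r : ℕ, 1 ≤ r → Correlation r l) :
    Determinantal sineKernel l := by
  intro r hr c a b hab
  simp_rw [sine_det]
  exact h r hr a b hab

/-- **Under the Riemann hypothesis, asymptotically determinantal zeros have the sine kernel.**
(1) If the correlation functions of the zeros are those of a determinantal process with a continuous Hermitian kernel of density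
one, then its determinants are those of the sine kernel, and the statement of the question holds for all `k`.
(2) Q1 holds if and only if every sequence of heights has a subsequence along which the zeros are asymptotically determinantal. -/
theorem result (hRH : RiemannHypothesis) :
    (∀ l : Filter ℝ, l ≤ atTop → l.NeBot → ∀ K : ℝ → ℝ → ℂ, IsKernel K → Determinantal K l →
      (∀ (n : ℕ) (u : Fin n → ℝ), (kernelMatrix K u).det = ((sineMatrix u).det : ℂ)) ∧
      ∀ r : ℕ, 1 ≤ r → Correlation r l) ∧
    ((∀ r : ℕ, 1 ≤ r → Correlation r atTop) ↔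
      ∀ T : ℕ → ℝ, Tendsto T atTop atTop → ∃ φ : ℕ → ℕ, StrictMono φ ∧
        ∃ K : ℝ → ℝ → ℂ, IsKernel K ∧ Determinantal K (map (fun n => T (φ n)) atTop)) := by
  refine ⟨fun l hl hn K hK hD => ?_, fun h T hT => ?_, fun h r hr a b hab => ?_⟩
  · have := hn
    exact det_part hRH hl hK hD
  · refine ⟨id, strictMono_id, sineKernel, sine_isKernel, sine_determinantal fun r hr a b hab => ?_⟩
    exact (h r hr a b hab).mono_left hT
  · apply tendsto_of_subseq_tendsto
    intro T hT
    obtain ⟨φ, hφ, K, hK, hD⟩ := h T hT
    refine ⟨φ, ?_⟩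
    have hl : map (fun n => T (φ n)) atTop ≤ atTop := hT.comp hφ.tendsto_atTop
    have h1 := (det_part hRH hl hK hD).2 r hr a b hab
    exact h1.comp tendsto_map

end Pool.Agent.Results.MP_67227b_nt.DeterminantalLimits
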