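import Pool.Agent.H34.BK.Base

/-!
# The prime number theorem in short intervals is independent of RH, Lindelöf and the laws of all constellations

Q1 asks for `π(x, H) ∼ H / log x` for all `x ^ ε ≤ H ≤ x`. The Riemann hypothesis gives this for `H` above `√x log x`. How much
below could be deduced from the Riemann hypothesis together with the prime tuple conjecture of Hardy and Littlewood with
square root errors? Here this is answered for generalised primes (Beurling primes): a sequence `1 < q 0 < q 1 < ...` of real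
numbers, with the generalised integers `gint q n = ∏ q (k - 1)` over the prime factors of `n` with multiplicity, the factor being
the `k`-th prime.

`RHSystem q` collects what the Riemann hypothesis and the Lindelöf hypothesis would give for the primes, in a strong form: the
prime number theorem with the error `O(√x)`, generalised integers with a positive density and the error `O(x ^ (1 / 2 + ε))`, and
a zeta function `s / (s - 1) * exp (G s)` with `G` holomorphic in `Re s > 1 / 2` and `O(√ (log (|t| + 3)))` uniformly in every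
half-plane `Re s ≥ σ > 1 / 2`.

The laws of the constellations: `tupleCount q D x` counts the primes `p ≤ x` such that `p + d` is a prime for all `d ∈ D`, for a
finite set `D` of natural numbers with `0 ∈ D`, `|D| ≥ 2`. These numbers are prescribed for all `D` at the same time, with the error
`O(x ^ (1 / 2 + ε))`; for instance they are `c D ∫_2^x du / (log u) ^ |D|` with the constants of Hardy and Littlewood.

(1) and (2) With any such laws, EVERY function `h` with `h x / log x → ∞` and `h x = O(√x log x)` which is self-neglecting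
(`h y ∼ h x` for `|y - x| = O(h x)`; for instance `h x = x ^ θ`, `0 < θ ≤ 1 / 2`, `h x = √x log x`, or `h x = (log x) ^ c`,
`c > 1`) is the exact threshold of the prime number theorem in short intervals for some system with `RHSystem` and with the given
laws: for every `lam > 0` the upper limit of `sup (π(x, H) log x / H)` over `lam h(x) ≤ H ≤ x` is `1 + 1 / lam`, and the lower limit
of the infimum is `max 0 (1 - 1 / lam)`. So the asymptotic formula holds, uniformly, for all `H` with `H / h(x) → ∞`, and it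
fails for `H ≍ h(x)`.

(3) For every `θ` in `[0, 1 / 2]` there is such a system, with the given laws, for which the asymptotic formula holds uniformly for
`x ^ (θ + ε) ≤ H ≤ x`, for every `ε > 0`, while the intervals `(x, x + x ^ (θ - ε)]` contain no generalised primes at all for
arbitrarily large `x`. So the analogue of Q1 is true for some of these systems (`θ = 0`) and false for others, and the range
`H ≥ x ^ (1 / 2 + ε)` which RH gives cannot be extended by any argument that uses only the hypotheses in `RHSystem` and the laws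
of (finitely or infinitely many) fixed constellations, even with square root errors.

The systems are those of `MP_ff81b6_nt.GapsGivenAllConstellations` (helper73; `Pool.Agent.H73.KT`): slowly growing blocks with
random patterns at random positions, chosen by the method of conditional expectations, with sparse holes whose points are moved
to the right end. The continuation of the zeta function and the count of the integers are helper49's (`Pool.Agent.H49.BP`). New
here: the counting function in all short intervals (`Pool.Agent.H34.BK`). It replaces `MP_31d0eb_nt.BeurlingThresholds`, the same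
theorem without the laws of the constellations.
-/

set_option autoImplicit false

open Filter Topology Set

namespace Pool.Agent.H34.Old.ThresholdsAndTuples

open Pool.Agent.H49.BP Pool.Agent.H34.BW Pool.Agent.H34.BK

/-- The number of the generalised primes `p ≤ x` such that `p + d` is a generalised prime for every `d ∈ D`. -/
noncomputable def tupleCount (q : ℕ → ℝ) (D : Finset ℕ) (x : ℝ) : ℕ :=
  {n : ℕ | q n ≤ x ∧ ∀ d ∈ D, ∃ k, q k = q n + d}.ncard

theorem rh_of {q : ℕ → ℝ} (hmono : StrictMono q) (hg : ∀ n : ℕ, (n : ℝ) + 1 ≤ q n) (hq0 : 1 < q 0) (hD : Disc q)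
    (hp : ∃ C : ℝ, ∀ x : ℝ, 2 ≤ x → |(pc q x : ℝ) - ∫ u in (2 : ℝ)..x, (Real.log u)⁻¹| ≤ C * √x) : RHSystem q := by
  obtain ⟨G, hG1, hG2, hG3, ρ, hρ, hN⟩ := zeta hmono hg hq0 hD
  refine ⟨hmono, hq0, hp, ⟨ρ, hρ, fun ε hε => ?_⟩, G, hG1, hG2, hG3⟩
  obtain ⟨C, hC⟩ := hN ε hε
  refine ⟨C, fun x hx => ?_⟩
  have e : intCount q x = {n : ℕ | gint q (n + 1) ≤ x}.ncard := by
    unfold intCount
    have h1 : {n : ℕ | 1 ≤ n ∧ gint q n ≤ x} = (fun n => n + 1) '' {n : ℕ | gint q (n + 1) ≤ x} := by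
      ext n
      constructor
      · rintro ⟨h2, h3⟩
        refine ⟨n - 1, ?_, by simp only; omega⟩
        show gint q (n - 1 + 1) ≤ x
        rw [Nat.sub_add_cancel h2]
        exact h3
      · rintro ⟨k, hk, rfl⟩
        exact ⟨by simp only; omega, hk⟩
    rw [h1, Set.ncard_image_of_injective _ (fun a b hab => by simpa using hab)]
  rw [e]
  exact hC x hx

/-- the system -/
theorem main {n : Finset ℕ → ℝ → ℝ} (hn : Pool.Agent.H73.KT.Laws n) {h : ℝ → ℝ} (hsn : SelfNeglecting h)
    (hlim : Tendsto (fun x => h x / Real.log x) atTop atTop)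
    (hup : ∃ A : ℝ, ∀ᶠ x in atTop, h x ≤ A * √x * Real.log x) :
    ∃ q : ℕ → ℝ, (RHSystem q ∧ ∀ D : Finset ℕ, 0 ∈ D → 2 ≤ D.card → ∀ ε : ℝ, 0 < ε → ∃ C : ℝ, ∀ x : ℝ, 2 ≤ x →
      |(tupleCount q D x : ℝ) - ∫ u in (2 : ℝ)..x, n D u / Real.log u| ≤ C * x ^ (1 / 2 + ε)) ∧
      ∃ (al be : ℕ → ℝ) (A : ℝ), HS h q al be A := by
  obtain ⟨V1, hV1⟩ := Pool.Agent.H73.KT.base_gaps hlim
  obtain ⟨V2, hV2⟩ := base_count hlim
  obtain ⟨a, S, q, hst, hD, hp, hlaw, _⟩ := Pool.Agent.H73.KT.realise0 hn (fun k => max (V1 k) (V2 k))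
  obtain ⟨b1, b2, b3⟩ := hst
  have hq := b3.2.1
  obtain ⟨q', al, be, A, hm, hS⟩ := holes_hs hq.1 hq.2.1 hp hlim hup hsn
    (hV1 a S q ⟨b1, fun b hb => (le_max_left _ _).trans (b2 b hb), b3⟩)
    (hV2 a S q ⟨b1, fun b hb => (le_max_right _ _).trans (b2 b hb), b3⟩)
  refine ⟨q', ⟨rh_of hm.1 (fun k => (hq.2.1 k).trans (hm.2.1 k)) (hq.2.2.1.trans_le (hm.2.1 0))
    (Pool.Agent.H73.KT.moved_disc hq.1 hq.2.1 hm hD) (Pool.Agent.H73.KT.moved_primes hq.1 hq.2.1 hm hp),
    fun D hD0 hD2 => ?_⟩, al, be, A, hS⟩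
  exact Pool.Agent.H73.KT.moved_tuples hq.1 hq.2.1 hm (hlaw D hD0 hD2)

/-- the system with constants -/
theorem main_const {c : Finset ℕ → ℝ} (hc : ∀ D, 0 ≤ c D)
    (hc0 : ∀ D D' : Finset ℕ, 0 ∈ D → 2 ≤ D.card → 0 ∈ D' → (∃ t, ∀ d ∈ D, t + d ∈ D') → c D = 0 → c D' = 0)
    {h : ℝ → ℝ} (hsn : SelfNeglecting h) (hlim : Tendsto (fun x => h x / Real.log x) atTop atTop)
    (hup : ∃ A : ℝ, ∀ᶠ x in atTop, h x ≤ A * √x * Real.log x) :
    ∃ q : ℕ → ℝ, RHSystem q ∧ (∀ D : Finset ℕ, 0 ∈ D → 2 ≤ D.card → ∀ ε : ℝ, 0 < ε → ∃ C : ℝ, ∀ x : ℝ, 2 ≤ x →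
      |(tupleCount q D x : ℝ) - c D * ∫ u in (2 : ℝ)..x, 1 / (Real.log u) ^ D.card| ≤ C * x ^ (1 / 2 + ε)) ∧
      ∃ (al be : ℕ → ℝ) (A : ℝ), HS h q al be A := by
  obtain ⟨q, ⟨hq, hlaw⟩, hS⟩ := main (Pool.Agent.H73.KT.nb_laws hc
      (fun D D' hD hD2 hD' hm => hc0 D D' hD hD2 hD' (by
        obtain ⟨t, _, h⟩ := Pool.Agent.H73.KT.mult_ne hm
        exact ⟨t, h⟩)) (Bad := fun _ => False) (fun _ _ _ h => h)
      (X := ∅) MeasurableSet.empty) hsn hlim hup
  refine ⟨q, hq, fun D hD hD2 ε hε => ?_, hS⟩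
  obtain ⟨C, hC⟩ := hlaw D hD hD2 ε hε
  refine ⟨C, fun x hx => ?_⟩
  rw [← Pool.Agent.H73.KT.nb_int (Bad := fun _ => False) (X := ∅) hD2 (fun h => h) hx]
  exact hC x hx

/-- **Prescribed thresholds of the prime number theorem in short intervals, under the analogues of RH and Lindelöf, with prescribed
laws of all constellations.** -/
theorem result :
    -- (1) general laws of the constellations; every self-neglecting function between `log x` and `√x log x` as exact threshold
    (∀ n : Finset ℕ → ℝ → ℝ, (∀ D, Measurable (n D)) → (∀ D u, 0 ≤ n D u) → (∀ D, ∃ B : ℝ, ∀ u, n D u ≤ B) →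
      (∀ D : Finset ℕ, 0 ∈ D → 2 ≤ D.card → Tendsto (n D) atTop (𝓝 0)) →
      (∀ D D' : Finset ℕ, 0 ∈ D → 2 ≤ D.card → 0 ∈ D' → D ≠ D' → (∃ t, ∀ d ∈ D, t + d ∈ D') →
        ∀ δ : ℝ, 0 < δ → ∀ᶠ u in atTop, n D' u ≤ δ * n D u) →
      ∀ h : ℝ → ℝ, SelfNeglecting h → Tendsto (fun x => h x / Real.log x) atTop atTop →
        (∃ A : ℝ, ∀ᶠ x in atTop, h x ≤ A * √x * Real.log x) →
          ∃ q : ℕ → ℝ, RHSystem q ∧
            (∀ D : Finset ℕ, 0 ∈ D → 2 ≤ D.card → ∀ ε : ℝ, 0 < ε → ∃ C : ℝ, ∀ x : ℝ, 2 ≤ x →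
              |(tupleCount q D x : ℝ) - ∫ u in (2 : ℝ)..x, n D u / Real.log u| ≤ C * x ^ (1 / 2 + ε)) ∧
            ∀ lam : ℝ, 0 < lam →
              limsup (fun x : ℝ => ⨆ H ∈ Icc (lam * h x) x, ((dens q x H : ℝ) : EReal)) atTop =
                ((1 + 1 / lam : ℝ) : EReal) ∧
              liminf (fun x : ℝ => ⨅ H ∈ Icc (lam * h x) x, ((dens q x H : ℝ) : EReal)) atTop =
                ((max 0 (1 - 1 / lam) : ℝ) : EReal)) ∧
    -- constants, for instance the constants of Hardy and Littlewood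
    ∀ c : Finset ℕ → ℝ, (∀ D, 0 ≤ c D) →
      (∀ D D' : Finset ℕ, 0 ∈ D → 2 ≤ D.card → 0 ∈ D' → (∃ t, ∀ d ∈ D, t + d ∈ D') → c D = 0 → c D' = 0) →
      -- (2) every self-neglecting function between `log x` and `√x log x` is the exact threshold of some system
      (∀ h : ℝ → ℝ, SelfNeglecting h → Tendsto (fun x => h x / Real.log x) atTop atTop →
        (∃ A : ℝ, ∀ᶠ x in atTop, h x ≤ A * √x * Real.log x) →
          ∃ q : ℕ → ℝ, RHSystem q ∧
            (∀ D : Finset ℕ, 0 ∈ D → 2 ≤ D.card → ∀ ε : ℝ, 0 < ε → ∃ C : ℝ, ∀ x : ℝ, 2 ≤ x →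
              |(tupleCount q D x : ℝ) - c D * ∫ u in (2 : ℝ)..x, 1 / (Real.log u) ^ D.card| ≤ C * x ^ (1 / 2 + ε)) ∧
            ∀ lam : ℝ, 0 < lam →
              limsup (fun x : ℝ => ⨆ H ∈ Icc (lam * h x) x, ((dens q x H : ℝ) : EReal)) atTop =
                ((1 + 1 / lam : ℝ) : EReal) ∧
              liminf (fun x : ℝ => ⨅ H ∈ Icc (lam * h x) x, ((dens q x H : ℝ) : EReal)) atTop =
                ((max 0 (1 - 1 / lam) : ℝ) : EReal)) ∧
      -- (3) every exponent in `[0, 1 / 2]` is the exact exponent of some system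
      ∀ θ : ℝ, 0 ≤ θ → θ ≤ 1 / 2 → ∃ q : ℕ → ℝ, RHSystem q ∧
        (∀ D : Finset ℕ, 0 ∈ D → 2 ≤ D.card → ∀ ε : ℝ, 0 < ε → ∃ C : ℝ, ∀ x : ℝ, 2 ≤ x →
          |(tupleCount q D x : ℝ) - c D * ∫ u in (2 : ℝ)..x, 1 / (Real.log u) ^ D.card| ≤ C * x ^ (1 / 2 + ε)) ∧
        ∀ ε : ℝ, 0 < ε →
          (∀ δ : ℝ, 0 < δ → ∀ᶠ x : ℝ in atTop, ∀ H ∈ Icc (x ^ (θ + ε)) x, |dens q x H - 1| ≤ δ) ∧
          ∃ᶠ x : ℝ in atTop, primesIn q x (x ^ (θ - ε)) = 0 := by
  refine ⟨fun n h1 h2 h3 h4 h5 h hsn hlim hup => ?_, fun c hc hc0 => ⟨fun h hsn hlim hup => ?_, fun θ h0 h1 => ?_⟩⟩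
  · obtain ⟨q, ⟨hq, hlaw⟩, al, be, A, S⟩ := main (n := n) ⟨h1, h2, h3, h4,
      fun D D' hD hD2 hD' hne hm => h5 D D' hD hD2 hD' hne (by
        obtain ⟨t, _, h⟩ := Pool.Agent.H73.KT.mult_ne hm
        exact ⟨t, h⟩)⟩ hsn hlim hup
    exact ⟨q, hq, hlaw, fun lam hlam => ⟨S.limsup_dens hlam, S.liminf_dens hlam⟩⟩
  · obtain ⟨q, hq, hlaw, al, be, A, S⟩ := main_const hc hc0 hsn hlim hup
    exact ⟨q, hq, hlaw, fun lam hlam => ⟨S.limsup_dens hlam, S.liminf_dens hlam⟩⟩
  · rcases eq_or_lt_of_le h0 with h2 | h2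
    · obtain ⟨q, hq, hlaw, al, be, A, S⟩ := main_const hc hc0 (h := fun x => Real.log x ^ 2) selfNeglecting_log (by
        refine Real.tendsto_log_atTop.congr' ?_
        filter_upwards [eventually_gt_atTop 1] with x hx
        have := (Real.log_pos hx).ne'
        field_simp) ⟨1, by
        filter_upwards [log_pow_le (ε := 1 / 2) (by norm_num) 1 1, eventually_gt_atTop 1] with x h4 h5
        have hl := Real.log_pos h5
        rw [← Real.sqrt_eq_rpow, one_mul, pow_one] at h4
        rw [one_mul, pow_two]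
        exact mul_le_mul_of_nonneg_right h4 hl.le⟩
      refine ⟨q, hq, hlaw, fun ε hε => ⟨fun δ hδ => S.above (f := fun x => x ^ (θ + ε)) (fun lam _ => ?_) hδ,
        S.below (f := fun x => x ^ (θ - ε)) ?_⟩⟩
      · rw [← h2, zero_add]
        exact log_pow_le hε 2 lam
      · filter_upwards [eventually_gt_atTop 1, Real.tendsto_log_atTop.eventually (eventually_ge_atTop 2)] with x h4 h5
        refine ⟨Real.rpow_nonneg (by linarith) _, ?_⟩
        have h6 : x ^ (θ - ε) ≤ 1 := Real.rpow_le_one_of_one_le_of_nonpos h4.le (by linarith)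
        nlinarith
    · obtain ⟨q, hq, hlaw, al, be, A, S⟩ := main_const hc hc0 (h := fun x => x ^ θ) (selfNeglecting_rpow h2 h1) (by
        refine tendsto_atTop.2 fun b => ?_
        filter_upwards [log_pow_le (ε := θ) h2 1 b, eventually_gt_atTop 1] with x h4 h5
        rw [pow_one] at h4
        rw [le_div_iff₀ (Real.log_pos h5)]
        exact h4) ⟨1, by
        filter_upwards [eventually_gt_atTop 1, Real.tendsto_log_atTop.eventually (eventually_ge_atTop 1)] with x h4 h5
        have h6 : x ^ θ ≤ √x := by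
          rw [Real.sqrt_eq_rpow]
          exact Real.rpow_le_rpow_of_exponent_le h4.le h1
        have h7 : 0 ≤ √x := Real.sqrt_nonneg x
        nlinarith⟩
      refine ⟨q, hq, hlaw, fun ε hε => ⟨fun δ hδ => S.above (f := fun x => x ^ (θ + ε)) (fun lam _ => ?_) hδ,
        S.below (f := fun x => x ^ (θ - ε)) ?_⟩⟩
      · exact rpow_mul_le (by linarith)
      · filter_upwards [eventually_gt_atTop 1, rpow_mul_le (a := θ - ε) (b := θ) (c := 1) (by linarith)] with x h4 h5
        refine ⟨Real.rpow_nonneg (by linarith) _, ?_⟩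
        linarith

end Pool.Agent.H34.Old.ThresholdsAndTuples
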